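import Mathlib
import Pool.Agent.Lib.MP_dadbe9_co.Main

namespace Pool.Agent.Results.MP_dadbe9_co.LowerBound

/-- Property (star): every set of seven vertices contains three pairwise adjacent vertices. -/
def Star {n : ℕ} (G : SimpleGraph (Fin n)) : Prop :=
  ∀ s : Finset (Fin n), s.card = 7 →
    ∃ a ∈ s, ∃ b ∈ s, ∃ c ∈ s, G.Adj a b ∧ G.Adj b c ∧ G.Adj a c

/-- `h n` is the least clique number of a graph on `n` vertices with property (star). -/
noncomputable def h (n : ℕ) : ℕ :=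
  sInf {k : ℕ | ∃ G : SimpleGraph (Fin n), Star G ∧ G.cliqueNum = k}

theorem bound {n : ℕ} (G : SimpleGraph (Fin n)) (hG : Star G) :
    n ^ 13 ≤ 60 ^ 13 * G.cliqueNum ^ 31 := by
  have hind : ∀ I : Finset (Fin n), Dad.Ind Gᶜ I → I.card ≤ G.cliqueNum := by
    intro I hI
    apply SimpleGraph.IsClique.card_le_cliqueNum
    intro a ha b hb hab
    have h1 := hI a ha b hb
    rw [SimpleGraph.compl_adj] at h1
    by_contra h2
    exact h1 ⟨hab, h2⟩
  have h7 : Dad.Seven Gᶜ := by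
    intro s hs
    obtain ⟨a, ha, b, hb, c, hc, ab, bc, ac⟩ := hG s hs
    refine ⟨a, ha, b, hb, c, hc, ab.ne, bc.ne, ac.ne, ?_, ?_, ?_⟩
    · rw [SimpleGraph.compl_adj]
      exact fun h => h.2 ab
    · rw [SimpleGraph.compl_adj]
      exact fun h => h.2 bc
    · rw [SimpleGraph.compl_adj]
      exact fun h => h.2 ac
  have := Dad.main hind h7
  rwa [Fintype.card_fin] at this

/-- For every `n ≥ 7`, every graph on `n` vertices in which every seven vertices span a triangle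
has a clique with at least `(n / 60) ^ (13 / 31)` vertices. -/
theorem result (n : ℕ) (hn : 7 ≤ n) : ((n : ℝ) / 60) ^ ((13 : ℝ) / 31) ≤ (h n : ℝ) := by
  have hne : {k : ℕ | ∃ G : SimpleGraph (Fin n), Star G ∧ G.cliqueNum = k}.Nonempty := by
    refine ⟨(⊤ : SimpleGraph (Fin n)).cliqueNum, ⊤, ?_, rfl⟩
    intro s hs
    have h3 : 2 < s.card := by omega
    obtain ⟨a, b, c, ha, hb, hc, hab, hac, hbc⟩ := Finset.two_lt_card_iff.mp h3
    exact ⟨a, ha, b, hb, c, hc, hab, hbc, hac⟩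
  obtain ⟨G, hG, hk⟩ := Nat.sInf_mem hne
  have h1 := bound G hG
  have h2 : h n = G.cliqueNum := hk.symm
  rw [← h2] at h1
  have h3 : ((n : ℝ) / 60) ^ 13 ≤ (h n : ℝ) ^ 31 := by
    rw [div_pow, div_le_iff₀ (by positivity)]
    have h4 : (n : ℝ) ^ 13 ≤ 60 ^ 13 * (h n : ℝ) ^ 31 := by exact_mod_cast h1
    linarith
  have h5 : (0 : ℝ) ≤ (n : ℝ) / 60 := by positivity
  calc ((n : ℝ) / 60) ^ ((13 : ℝ) / 31) = (((n : ℝ) / 60) ^ 13) ^ ((1 : ℝ) / 31) := by
        rw [← Real.rpow_natCast_mul h5]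
        norm_num
    _ ≤ ((h n : ℝ) ^ 31) ^ ((1 : ℝ) / 31) := Real.rpow_le_rpow (by positivity) h3 (by norm_num)
    _ = (h n : ℝ) := by
        rw [← Real.rpow_natCast_mul (by positivity)]
        norm_num

end Pool.Agent.Results.MP_dadbe9_co.LowerBound
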